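import Pool.Agent.W753.CZ.Crouzeix
import Mathlib

/-!
# Spectral constants for scaled q-numerical ranges (operator form)
-/

set_option autoImplicit false

open Polynomial

namespace Pool.Agent.K6.H39.QNR

variable {H : Type*} [NormedAddCommGroup H] [InnerProductSpace ℂ H]

/-- The scaled `q`-numerical range `W_q(A)/q` of an operator. -/
def Om (A : H →L[ℂ] H) (q : ℂ) : Set ℂ :=
  {z : ℂ | ∃ x y : H, ‖x‖ = 1 ∧ ‖y‖ = 1 ∧ inner ℂ y x = q ∧ inner ℂ y (A x) / q = z}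

/-- Maximum modulus on a disc. -/
theorem poly_disc (p : ℂ[X]) (M r : ℝ) (hr : 0 ≤ r) (a b : ℂ)
    (h : ∀ ζ : ℂ, ‖ζ‖ = r → ‖p.eval (a + ζ * b)‖ ≤ M) (ζ : ℂ) (hζ : ‖ζ‖ ≤ r) :
    ‖p.eval (a + ζ * b)‖ ≤ M := by
  rcases hr.eq_or_lt with h0 | h0
  · exact h ζ (le_antisymm hζ (by rw [← h0]; exact norm_nonneg _))
  · have hd : Differentiable ℂ (fun ζ : ℂ => p.eval (a + ζ * b)) := by
      apply Differentiable.comp (g := fun z : ℂ => p.eval z)
      · exact p.differentiable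
      · fun_prop
    refine Complex.norm_le_of_forall_mem_frontier_norm_le (U := Metric.ball (0 : ℂ) r)
      Metric.isBounded_ball (f := fun ζ : ℂ => p.eval (a + ζ * b)) hd.diffContOnCl ?_ ?_
    · intro z hz
      rw [frontier_ball _ h0.ne', mem_sphere_zero_iff_norm] at hz
      exact h z hz
    · rw [closure_ball _ h0.ne', mem_closedBall_zero_iff]
      exact hζ

/-- A value of `p` at `⟪y, A x⟫` with `⟪y, x⟫ = 1` and `‖x‖ ‖y‖ ≤ 1/|q|` is at most the supremum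
of `|p|` over the scaled `q`-numerical range. -/
theorem poly_pair (A : H →L[ℂ] H) (q : ℂ) (hq0 : 0 < ‖q‖) (hq1 : ‖q‖ ≤ 1)
    (hdim : ‖q‖ < 1 → ∀ x : H, ∃ e : H, ‖e‖ = 1 ∧ inner ℂ e x = 0)
    (p : ℂ[X]) (M : ℝ) (hM : ∀ z ∈ Om A q, ‖p.eval z‖ ≤ M) (x y : H)
    (hxy : inner ℂ y x = 1) (hn : ‖x‖ * ‖y‖ ≤ 1 / ‖q‖) : ‖p.eval (inner ℂ y (A x))‖ ≤ M := by
  have hx0 : x ≠ 0 := by
    rintro rfl
    simp at hxy
  have hxn : 0 < ‖x‖ := norm_pos_iff.mpr hx0
  -- normalised vectors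
  set x' : H := ((‖x‖⁻¹ : ℝ) : ℂ) • x with hx'
  set y' : H := ((‖x‖ : ℝ) : ℂ) • y with hy'
  have hx1 : ‖x'‖ = 1 := by
    rw [hx', norm_smul, Complex.norm_real, norm_inv, norm_norm, inv_mul_cancel₀ hxn.ne']
  have hxy' : inner ℂ y' x' = 1 := by
    rw [hx', hy', inner_smul_left, inner_smul_right, hxy, Complex.conj_ofReal, mul_one,
      ← Complex.ofReal_mul, mul_inv_cancel₀ hxn.ne', Complex.ofReal_one]
  have hval : inner ℂ y' (A x') = inner ℂ y (A x) := by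
    rw [hx', hy', map_smul, inner_smul_left, inner_smul_right, Complex.conj_ofReal, ← mul_assoc,
      ← Complex.ofReal_mul, mul_inv_cancel₀ hxn.ne', Complex.ofReal_one, one_mul]
  have hyn : ‖y'‖ ≤ 1 / ‖q‖ := by
    rw [hy', norm_smul, Complex.norm_real, norm_norm]
    exact hn
  rw [← hval]
  clear_value x' y'
  set w : H := y' - x' with hw
  have hyw : y' = x' + w := by rw [hw]; abel
  clear_value w
  have hxx : inner ℂ x' x' = (1 : ℂ) := by
    rw [inner_self_eq_norm_sq_to_K, hx1]; simp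
  have hwx : inner ℂ w x' = 0 := by
    rw [hw, inner_sub_left, hxy', hxx, sub_self]
  have hwn : ‖y'‖ ^ 2 = 1 + ‖w‖ ^ 2 := by
    have := norm_add_sq_eq_norm_sq_add_norm_sq_of_inner_eq_zero w x' hwx
    rw [hyw, add_comm x' w]
    nlinarith [this, hx1]
  set r : ℝ := Real.sqrt (1 / ‖q‖ ^ 2 - 1) with hr
  have hr2 : r ^ 2 = 1 / ‖q‖ ^ 2 - 1 := by
    rw [hr, Real.sq_sqrt]
    rw [sub_nonneg, le_div_iff₀ (by positivity)]
    nlinarith
  have hr0 : 0 ≤ r := Real.sqrt_nonneg _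
  have hwr : ‖w‖ ≤ r := by
    apply Real.le_sqrt_of_sq_le
    have h1 : ‖y'‖ ^ 2 ≤ (1 / ‖q‖) ^ 2 := by gcongr
    rw [one_div_pow] at h1
    linarith
  have hex : ∃ (e : H) (σ : ℝ), r * ‖e‖ = r ∧ inner ℂ e x' = 0 ∧ w = ((σ : ℝ) : ℂ) • e ∧ |σ| ≤ r := by
    by_cases hw0 : w = 0
    · rcases hq1.eq_or_lt with h1 | h1
      · refine ⟨0, 0, ?_, by simp, by simp [hw0], by simpa using hr0⟩
        have : r ^ 2 = 0 := by rw [hr2, h1]; norm_num
        have : r = 0 := by simpa using this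
        rw [this]; simp
      · obtain ⟨e, he1, he2⟩ := hdim h1 x'
        exact ⟨e, 0, by rw [he1, mul_one], he2, by simp [hw0], by simpa using hr0⟩
    · have hwp : 0 < ‖w‖ := norm_pos_iff.mpr hw0
      refine ⟨((‖w‖⁻¹ : ℝ) : ℂ) • w, ‖w‖, ?_, ?_, ?_, ?_⟩
      · rw [norm_smul, Complex.norm_real, norm_inv, norm_norm, inv_mul_cancel₀ hwp.ne', mul_one]
      · rw [inner_smul_left, hwx, mul_zero]
      · rw [smul_smul, ← Complex.ofReal_mul, mul_inv_cancel₀ hwp.ne', Complex.ofReal_one, one_smul]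
      · rw [abs_of_pos hwp]; exact hwr
  obtain ⟨e, σ, he, hex', hwe, hσ⟩ := hex
  have key : ∀ ζ : ℂ, ‖ζ‖ = r →
      ‖p.eval (inner ℂ x' (A x') + ζ * inner ℂ e (A x'))‖ ≤ M := by
    intro ζ hζ
    apply hM
    set z : H := x' + (starRingEnd ℂ ζ) • e with hz
    have hzx : inner ℂ z x' = 1 := by
      rw [hz, inner_add_left, inner_smul_left, hex', hxx]; simp
    have hzA : inner ℂ z (A x') = inner ℂ x' (A x') + ζ * inner ℂ e (A x') := by
      rw [hz, inner_add_left, inner_smul_left]; simp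
    have hzn : ‖z‖ ^ 2 = 1 / ‖q‖ ^ 2 := by
      have h0 : inner ℂ ((starRingEnd ℂ ζ) • e) x' = 0 := by
        rw [inner_smul_left, hex', mul_zero]
      have := norm_add_sq_eq_norm_sq_add_norm_sq_of_inner_eq_zero _ _ h0
      have h2 : ‖(starRingEnd ℂ ζ) • e‖ = r := by
        rw [norm_smul, Complex.norm_conj, hζ, he]
      rw [hz, add_comm x']
      rw [h2, hx1] at this
      nlinarith [this, hr2]
    refine ⟨x', (starRingEnd ℂ q) • z, hx1, ?_, ?_, ?_⟩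
    · rw [norm_smul, Complex.norm_conj]
      have h3 : (‖q‖ * ‖z‖) ^ 2 = 1 := by
        rw [mul_pow, hzn]; field_simp
      have h4 : 0 ≤ ‖q‖ * ‖z‖ := by positivity
      nlinarith
    · rw [inner_smul_left, hzx]; simp
    · rw [inner_smul_left, hzA]
      have hq : q ≠ 0 := norm_pos_iff.mp hq0
      simp only [Complex.conj_conj]
      field_simp
  have hfin := poly_disc p M r hr0 (inner ℂ x' (A x')) (inner ℂ e (A x')) key (σ : ℂ)
    (by rw [Complex.norm_real]; exact hσ)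
  have : inner ℂ y' (A x') = inner ℂ x' (A x') + (σ : ℂ) * inner ℂ e (A x') := by
    rw [hyw, hwe, inner_add_left, inner_smul_left, Complex.conj_ofReal]
  rw [this]
  exact hfin

/-- The rank-one perturbation `1 + (s - 1) |y⟩⟨y|` of the identity. -/
noncomputable def Lop (y : H) (s : ℝ) : H →L[ℂ] H :=
  ContinuousLinearMap.id ℂ H + ((s - 1 : ℝ) : ℂ) • (innerSL ℂ y).smulRight y

theorem Lop_apply (y : H) (s : ℝ) (x : H) :
    Lop y s x = x + (((s - 1 : ℝ) : ℂ) * inner ℂ y x) • y := by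
  simp [Lop, smul_smul]

theorem Lop_comp (y : H) (hy : ‖y‖ = 1) (s t : ℝ) (x : H) :
    Lop y s (Lop y t x) = Lop y (s * t) x := by
  have hyy : inner ℂ y y = (1 : ℂ) := by
    rw [inner_self_eq_norm_sq_to_K, hy]; simp
  simp only [Lop_apply, inner_add_right, inner_smul_right, hyy, mul_one]
  rw [add_assoc, ← add_smul]
  congr 2
  push_cast
  ring

theorem Lop_one (y : H) : Lop y 1 = ContinuousLinearMap.id ℂ H := by
  ext x; simp [Lop_apply]

theorem Lop_symm (y : H) (s : ℝ) (u v : H) :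
    inner ℂ (Lop y s u) v = inner ℂ u (Lop y s v) := by
  simp only [Lop_apply, inner_add_left, inner_add_right, inner_smul_left, inner_smul_right,
    map_mul, Complex.conj_ofReal, inner_conj_symm]
  ring

theorem Lop_norm_sq (y : H) (hy : ‖y‖ = 1) (s : ℝ) (u : H) :
    ‖Lop y s u‖ ^ 2 = ‖u‖ ^ 2 + (s ^ 2 - 1) * ‖(inner ℂ y u : ℂ)‖ ^ 2 := by
  have h1 : (inner ℂ (Lop y s u) (Lop y s u) : ℂ) = inner ℂ u (Lop y (s * s) u) := by
    rw [Lop_symm, Lop_comp y hy]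
  have h2 := congrArg Complex.re h1
  rw [inner_self_eq_norm_sq_to_K, Lop_apply y (s * s), inner_add_right, inner_smul_right,
    inner_self_eq_norm_sq_to_K] at h2
  have h3 : (inner ℂ y u : ℂ) * inner ℂ u y = ((‖(inner ℂ y u : ℂ)‖ ^ 2 : ℝ) : ℂ) := by
    rw [← inner_conj_symm u y, Complex.mul_conj, Complex.normSq_eq_norm_sq]
  rw [mul_assoc, h3] at h2
  norm_cast at h2
  simp only [Complex.add_re, Complex.ofReal_re, Complex.coe_algebraMap] at h2
  rw [h2]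
  ring


/-- Kantorovich-type bound. -/
theorem Lop_kantorovich (y : H) (hy : ‖y‖ = 1) (t : ℝ) (ht : 1 ≤ t) (u : H) (hu : ‖u‖ = 1) :
    ‖Lop y t⁻¹ u‖ * ‖Lop y t u‖ ≤ (t + t⁻¹) / 2 := by
  have ht0 : 0 < t := by linarith
  have h1 := Lop_norm_sq y hy t u
  have h2 := Lop_norm_sq y hy t⁻¹ u
  set s : ℝ := ‖(inner ℂ y u : ℂ)‖ ^ 2 with hs
  rw [hu] at h1 h2
  have hti : 0 < t⁻¹ := by positivity
  have htt : t * t⁻¹ = 1 := mul_inv_cancel₀ ht0.ne'
  apply le_of_sq_le_sq _ (by positivity)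
  rw [mul_pow, h1, h2]
  have e : ((t + t⁻¹) / 2) ^ 2 - (1 ^ 2 + (t⁻¹ ^ 2 - 1) * s) * (1 ^ 2 + (t ^ 2 - 1) * s) =
      ((s - 1 / 2) * (t - t⁻¹)) ^ 2 := by
    linear_combination (1 - 2 * s - s ^ 2 * (t * t⁻¹ - 1)) * htt
  have := sq_nonneg ((s - 1 / 2) * (t - t⁻¹))
  linarith


theorem aeval_conj' {R : Type*} [Ring R] [Algebra ℂ R] (L Li A : R) (h : Li * L = 1)
    (h' : L * Li = 1) (p : ℂ[X]) : aeval (L * A * Li) p = L * aeval A p * Li := by
  induction p using Polynomial.induction_on' with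
  | add p q hp hq => rw [map_add, hp, hq, map_add]; noncomm_ring
  | monomial n a =>
    rw [aeval_monomial, aeval_monomial]
    have e : (L * A * Li) ^ n = L * A ^ n * Li := by
      induction n with
      | zero => simp [h']
      | succ n ih =>
        rw [pow_succ, ih, pow_succ]
        calc L * A ^ n * Li * (L * A * Li) = L * A ^ n * (Li * L) * A * Li := by noncomm_ring
          _ = L * (A ^ n * A) * Li := by rw [h]; noncomm_ring
    rw [e, Algebra.algebraMap_eq_smul_one, smul_one_mul, smul_one_mul, mul_smul_comm, smul_mul_assoc]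

variable [CompleteSpace H]

/-- Similarity step: the conjugate of `p(A)` by `1 + (t - 1)|y⟩⟨y|` has norm at most twice the
supremum of `|p|` over the scaled `q`-numerical range when `(t + 1/t)/2 ≤ 1/|q|`. -/
theorem conj_bound [Nontrivial H] (A : H →L[ℂ] H) (q : ℂ) (hq0 : 0 < ‖q‖) (hq1 : ‖q‖ ≤ 1)
    (hdim : ‖q‖ < 1 → ∀ x : H, ∃ e : H, ‖e‖ = 1 ∧ inner ℂ e x = 0)
    (t : ℝ) (ht : 1 ≤ t) (htq : (t + t⁻¹) / 2 ≤ 1 / ‖q‖)
    (p : ℂ[X]) (M : ℝ) (hM : ∀ z ∈ Om A q, ‖p.eval z‖ ≤ M) (y : H) (hy : ‖y‖ = 1) :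
    ‖Lop y t * aeval A p * Lop y t⁻¹‖ ≤ 2 * M := by
  have ht0 : 0 < t := by linarith
  have hLL : Lop y t⁻¹ * Lop y t = 1 := by
    ext x
    simp only [mul_apply_eq_comp, one_apply_eq_self]
    rw [Lop_comp y hy, inv_mul_cancel₀ ht0.ne', Lop_one]; rfl
  have hLL' : Lop y t * Lop y t⁻¹ = 1 := by
    ext x
    simp only [mul_apply_eq_comp, one_apply_eq_self]
    rw [Lop_comp y hy, mul_inv_cancel₀ ht0.ne', Lop_one]; rfl
  rw [← aeval_conj' _ _ _ hLL hLL']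
  apply Pool.Agent.W753.CZ.crouzeix_bound
  rintro w ⟨u, hu, rfl⟩
  have e1 : inner ℂ u ((Lop y t * A * Lop y t⁻¹) u) = inner ℂ (Lop y t u) (A (Lop y t⁻¹ u)) := by
    rw [Lop_symm]; rfl
  rw [e1]
  apply poly_pair A q hq0 hq1 hdim p M hM
  · rw [Lop_symm, Lop_comp y hy, mul_inv_cancel₀ ht0.ne', Lop_one, ContinuousLinearMap.id_apply,
      inner_self_eq_norm_sq_to_K, hu]
    simp
  · exact (Lop_kantorovich y hy t ht u hu).trans htq


/-- The second-order variation `h ↦ h - a + ā h²` maps the unit disc into the disc of radius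
`1 + 2|a|²`. -/
theorem var_bound (a h : ℂ) (ha : ‖a‖ ≤ 1) (hh : ‖h‖ ≤ 1) :
    ‖h - a + (starRingEnd ℂ a) * h ^ 2‖ ≤ 1 + 2 * ‖a‖ ^ 2 := by
  set b := (starRingEnd ℂ a) with hb
  have hbn : ‖b‖ = ‖a‖ := Complex.norm_conj a
  have hab : a * b = ((‖a‖ ^ 2 : ℝ) : ℂ) := by
    rw [hb, Complex.mul_conj, Complex.normSq_eq_norm_sq]
  have e : h - a + b * h ^ 2 = (h - a) * (1 + b * h) + ((‖a‖ ^ 2 : ℝ) : ℂ) * h := by
    rw [← hab]; ring
  have h1 : ‖h - a‖ ≤ ‖1 - b * h‖ := by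
    apply le_of_sq_le_sq _ (norm_nonneg _)
    have e1 : ‖1 - b * h‖ ^ 2 - ‖h - a‖ ^ 2 = (1 - ‖a‖ ^ 2) * (1 - ‖h‖ ^ 2) := by
      rw [← Complex.normSq_eq_norm_sq, ← Complex.normSq_eq_norm_sq, ← Complex.normSq_eq_norm_sq,
        ← Complex.normSq_eq_norm_sq, hb]
      simp only [Complex.normSq_apply, Complex.sub_re, Complex.sub_im, Complex.mul_re,
        Complex.mul_im, Complex.conj_re, Complex.conj_im, Complex.one_re, Complex.one_im]
      ring
    have h2 : 0 ≤ (1 - ‖a‖ ^ 2) * (1 - ‖h‖ ^ 2) := by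
      apply mul_nonneg
      · nlinarith [norm_nonneg a]
      · nlinarith [norm_nonneg h]
    linarith
  have h3 : ‖(1 - b * h) * (1 + b * h)‖ ≤ 1 + ‖a‖ ^ 2 := by
    have : (1 - b * h) * (1 + b * h) = 1 - b ^ 2 * h ^ 2 := by ring
    rw [this]
    refine (norm_sub_le _ _).trans ?_
    rw [norm_one, norm_mul, norm_pow, norm_pow, hbn]
    have : ‖h‖ ^ 2 ≤ 1 := by nlinarith [norm_nonneg h]
    nlinarith [sq_nonneg ‖a‖]
  rw [e]
  refine (norm_add_le _ _).trans ?_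
  rw [norm_mul, norm_mul, Complex.norm_real, norm_pow, norm_norm]
  rw [norm_mul] at h3
  have h4 : ‖h - a‖ * ‖1 + b * h‖ ≤ ‖1 - b * h‖ * ‖1 + b * h‖ := by gcongr
  nlinarith [sq_nonneg ‖a‖]

/-- The set of values `h(A)`, `h` a polynomial bounded by one on the scaled `q`-numerical range. -/
def Bset (A : H →L[ℂ] H) (q : ℂ) : Set (H →L[ℂ] H) :=
  {T | ∃ h : ℂ[X], (∀ z ∈ Om A q, ‖h.eval z‖ ≤ 1) ∧ aeval A h = T}

theorem Bset_var (A : H →L[ℂ] H) (q : ℂ) (K : ℝ)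
    (hK : ∀ T ∈ Bset A q, ‖T‖ ≤ K) (a : ℂ) (ha : ‖a‖ ≤ 1) (T : H →L[ℂ] H)
    (hT : T ∈ closure (Bset A q)) :
    ‖T - a • (1 : H →L[ℂ] H) + (starRingEnd ℂ a) • (T * T)‖ ≤ K * (1 + 2 * ‖a‖ ^ 2) := by
  have hcl : IsClosed {T : H →L[ℂ] H |
      ‖T - a • (1 : H →L[ℂ] H) + (starRingEnd ℂ a) • (T * T)‖ ≤ K * (1 + 2 * ‖a‖ ^ 2)} := by
    apply isClosed_le
    · fun_prop
    · fun_prop
  refine closure_minimal ?_ hcl hT
  rintro T ⟨h, hh, rfl⟩
  have hc : (0 : ℝ) < 1 + 2 * ‖a‖ ^ 2 := by positivity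
  have := hK (aeval A (C (((1 + 2 * ‖a‖ ^ 2)⁻¹ : ℝ) : ℂ) * (h - C a + C (starRingEnd ℂ a) * h ^ 2)))
    ⟨_, by
      intro z hz
      rw [eval_mul, eval_C, norm_mul, Complex.norm_real, norm_inv, Real.norm_of_nonneg hc.le]
      rw [inv_mul_le_iff₀ hc, mul_one]
      have := var_bound a (h.eval z) ha (hh z hz)
      simpa using this, rfl⟩
  rw [map_mul, aeval_C, Algebra.algebraMap_eq_smul_one, smul_one_mul, norm_smul, Complex.norm_real,
    norm_inv, Real.norm_of_nonneg hc.le, inv_mul_le_iff₀ hc] at this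
  have e : aeval A (h - C a + C (starRingEnd ℂ a) * h ^ 2) =
      aeval A h - a • (1 : H →L[ℂ] H) + (starRingEnd ℂ a) • (aeval A h * aeval A h) := by
    simp [Algebra.algebraMap_eq_smul_one, pow_two]
  rw [e, mul_comm] at this
  exact this


omit [CompleteSpace H] in
theorem exists_norm_attained [FiniteDimensional ℂ H] [Nontrivial H] (T : H →L[ℂ] H) :
    ∃ x : H, ‖x‖ = 1 ∧ ‖T x‖ = ‖T‖ := by
  have : ProperSpace H := FiniteDimensional.proper ℂ H
  have hne : (Metric.sphere (0 : H) 1).Nonempty := by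
    obtain ⟨x, hx⟩ := exists_norm_eq H zero_le_one
    exact ⟨x, by simpa using hx⟩
  obtain ⟨x, hx, hmax⟩ := (isCompact_sphere (0 : H) 1).exists_isMaxOn hne
    (f := fun x => ‖T x‖) (by fun_prop)
  have hx1 : ‖x‖ = 1 := by simpa using hx
  refine ⟨x, hx1, le_antisymm ?_ ?_⟩
  · simpa [hx1] using T.le_opNorm x
  · apply T.opNorm_le_bound (norm_nonneg _)
    intro v
    by_cases hv : v = 0
    · simp [hv]
    · have hvn : 0 < ‖v‖ := norm_pos_iff.mpr hv
      have h1 : ‖T (((‖v‖⁻¹ : ℝ) : ℂ) • v)‖ ≤ ‖T x‖ := by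
        apply hmax
        simp [norm_smul, hvn.ne']
      rw [map_smul, norm_smul, Complex.norm_real, norm_inv, norm_norm, inv_mul_le_iff₀ hvn] at h1
      linarith

/-- Extremal orthogonality. -/
theorem extremal_orth (A : H →L[ℂ] H) (q : ℂ) (T : H →L[ℂ] H) (hT : T ∈ closure (Bset A q))
    (hmax : ∀ S ∈ Bset A q, ‖S‖ ≤ ‖T‖) (h1 : 1 < ‖T‖) (x : H) (hx : ‖x‖ = 1)
    (hTx : ‖T x‖ = ‖T‖) : inner ℂ (T x) x = 0 := by
  set K : ℝ := ‖T‖ with hK
  have hadj : (ContinuousLinearMap.adjoint T) (T x) = ((K ^ 2 : ℝ) : ℂ) • x := by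
    rw [← sub_eq_zero, ← norm_eq_zero]
    have h2 : ‖(ContinuousLinearMap.adjoint T) (T x)‖ ≤ K ^ 2 := by
      refine ((ContinuousLinearMap.adjoint T).le_opNorm _).trans ?_
      rw [hTx, LinearIsometryEquiv.norm_map]
      rw [pow_two]
    have h3 : ‖(ContinuousLinearMap.adjoint T) (T x) - ((K ^ 2 : ℝ) : ℂ) • x‖ ^ 2 =
        ‖(ContinuousLinearMap.adjoint T) (T x)‖ ^ 2 - K ^ 4 := by
      rw [@norm_sub_sq ℂ, inner_smul_right, ContinuousLinearMap.adjoint_inner_left,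
        inner_self_eq_norm_sq_to_K, hTx, norm_smul, Complex.norm_real, hx]
      have : RCLike.re (((K ^ 2 : ℝ) : ℂ) * ((K : ℂ)) ^ 2) = K ^ 4 := by
        norm_cast
        simp only [RCLike.re_to_complex, Complex.ofReal_re]
        ring
      rw [show ((RCLike.ofReal K : ℂ)) = (K : ℂ) from rfl, this]
      rw [Real.norm_of_nonneg (by positivity)]
      ring
    have h4 : ‖(ContinuousLinearMap.adjoint T) (T x)‖ ^ 2 ≤ (K ^ 2) ^ 2 := by gcongr
    nlinarith [norm_nonneg ((ContinuousLinearMap.adjoint T) (T x) - ((K ^ 2 : ℝ) : ℂ) • x)]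
  set s : ℂ := inner ℂ (T x) x with hs
  have hsn : ‖s‖ ≤ K := by
    refine (norm_inner_le_norm _ _).trans ?_
    rw [hTx, hx, mul_one]
  have key : ∀ a : ℂ, ‖a‖ ≤ 1 → (K ^ 2 - 1) * (a * s).re ≤ 2 * K ^ 2 * ‖a‖ ^ 2 := by
    intro a ha
    have h2 := Bset_var A q K hmax a ha T hT
    have h3 : (inner ℂ (T x) ((T - a • (1 : H →L[ℂ] H) + (starRingEnd ℂ a) • (T * T)) x)).re ≤
        K * (K * (1 + 2 * ‖a‖ ^ 2)) := by
      refine (Complex.re_le_norm _).trans ((norm_inner_le_norm _ _).trans ?_)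
      rw [hTx]
      apply mul_le_mul_of_nonneg_left _ (by linarith)
      refine (ContinuousLinearMap.le_opNorm _ _).trans ?_
      rw [hx, mul_one]
      exact h2
    have h4 : inner ℂ (T x) ((T - a • (1 : H →L[ℂ] H) + (starRingEnd ℂ a) • (T * T)) x) =
        ((K ^ 2 : ℝ) : ℂ) - a * s + (starRingEnd ℂ a) * (((K ^ 2 : ℝ) : ℂ) * (starRingEnd ℂ s)) := by
      have h5 : inner ℂ (T x) (T (T x)) = ((K ^ 2 : ℝ) : ℂ) * (starRingEnd ℂ s) := by
        rw [← ContinuousLinearMap.adjoint_inner_left, hadj, inner_smul_left, Complex.conj_ofReal, hs,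
          inner_conj_symm]
      have h6 : inner ℂ (T x) (T x) = ((K ^ 2 : ℝ) : ℂ) := by
        rw [inner_self_eq_norm_sq_to_K, hTx]; norm_cast
      simp only [add_apply, sub_apply,
        smul_apply, one_apply_eq_self, mul_apply_eq_comp, inner_add_right,
        inner_sub_right, inner_smul_right, h5, h6, ← hs]
    rw [h4] at h3
    have h7 : (((K ^ 2 : ℝ) : ℂ) - a * s +
        (starRingEnd ℂ a) * (((K ^ 2 : ℝ) : ℂ) * (starRingEnd ℂ s))).re =
        K ^ 2 + (K ^ 2 - 1) * (a * s).re := by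
      have : (starRingEnd ℂ a) * (((K ^ 2 : ℝ) : ℂ) * (starRingEnd ℂ s)) =
          ((K ^ 2 : ℝ) : ℂ) * (starRingEnd ℂ (a * s)) := by
        rw [map_mul]; ring
      rw [this, Complex.add_re, Complex.sub_re, Complex.ofReal_re, Complex.re_ofReal_mul,
        Complex.conj_re]
      ring
    rw [h7] at h3
    nlinarith
  by_contra hs0
  have hsp : 0 < ‖s‖ := norm_pos_iff.mpr hs0
  have hK0 : 0 < K := by linarith
  have hK1 : 0 < K ^ 2 - 1 := by nlinarith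
  set ε : ℝ := min (1 / K) ((K ^ 2 - 1) / (4 * K ^ 2)) with hε
  have hε0 : 0 < ε := lt_min (by positivity) (by positivity)
  have hε1 : ε ≤ 1 / K := min_le_left _ _
  have hε2 : ε ≤ (K ^ 2 - 1) / (4 * K ^ 2) := min_le_right _ _
  have ha : ‖((ε : ℝ) : ℂ) * (starRingEnd ℂ s)‖ = ε * ‖s‖ := by
    rw [norm_mul, Complex.norm_real, Complex.norm_conj, Real.norm_of_nonneg hε0.le]
  have h8 := key (((ε : ℝ) : ℂ) * (starRingEnd ℂ s)) (by
    rw [ha]
    calc ε * ‖s‖ ≤ 1 / K * K := by gcongr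
      _ = 1 := by field_simp)
  rw [ha] at h8
  have h9 : (((ε : ℝ) : ℂ) * (starRingEnd ℂ s) * s).re = ε * ‖s‖ ^ 2 := by
    rw [mul_assoc, mul_comm (starRingEnd ℂ s) s, Complex.mul_conj, Complex.normSq_eq_norm_sq,
      ← Complex.ofReal_mul, Complex.ofReal_re]
  rw [h9] at h8
  have h10 : (K ^ 2 - 1) ≤ 2 * K ^ 2 * ε := by
    have h11 : 0 < ε * ‖s‖ ^ 2 := by positivity
    have : (K ^ 2 - 1) * (ε * ‖s‖ ^ 2) ≤ (2 * K ^ 2 * ε) * (ε * ‖s‖ ^ 2) := by nlinarith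
    exact le_of_mul_le_mul_right this h11
  have h12 : 2 * K ^ 2 * ε ≤ (K ^ 2 - 1) / 2 := by
    calc 2 * K ^ 2 * ε ≤ 2 * K ^ 2 * ((K ^ 2 - 1) / (4 * K ^ 2)) := by gcongr
      _ = (K ^ 2 - 1) / 2 := by field_simp; ring
  linarith

/-- **Main bound (operator form).** -/
theorem main_bound [FiniteDimensional ℂ H] [Nontrivial H] (A : H →L[ℂ] H) (q : ℂ)
    (hq0 : 0 < ‖q‖) (hq1 : ‖q‖ ≤ 1)
    (hdim : ‖q‖ < 1 → ∀ x : H, ∃ e : H, ‖e‖ = 1 ∧ inner ℂ e x = 0)
    (t : ℝ) (ht : 1 ≤ t) (htq : (t + t⁻¹) / 2 ≤ 1 / ‖q‖)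
    (p : ℂ[X]) (M : ℝ) (hM : ∀ z ∈ Om A q, ‖p.eval z‖ ≤ M) :
    ‖aeval A p‖ ≤ max 1 (2 / t) * M := by
  have ht0 : 0 < t := by linarith
  -- all elements of the closed set satisfy the conjugation bound
  have hconj : ∀ T ∈ closure (Bset A q), ∀ y : H, ‖y‖ = 1 →
      ‖Lop y t * T * Lop y t⁻¹‖ ≤ 2 := by
    intro T hT y hy
    have hcl : IsClosed {T : H →L[ℂ] H | ‖Lop y t * T * Lop y t⁻¹‖ ≤ 2} := by
      apply isClosed_le
      · fun_prop
      · fun_prop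
    refine closure_minimal ?_ hcl hT
    rintro T ⟨h, hh, rfl⟩
    have := conj_bound A q hq0 hq1 hdim t ht htq h 1 hh y hy
    simpa using this
  obtain ⟨y₀, hy₀⟩ := exists_norm_eq H zero_le_one
  have hq1' : (1 : ℝ) ≤ 1 / ‖q‖ := by
    rw [le_div_iff₀ hq0, one_mul]; exact hq1
  -- Crouzeix's bound on the whole range
  have htwo : ∀ (h : ℂ[X]) (N : ℝ), (∀ z ∈ Om A q, ‖h.eval z‖ ≤ N) → ‖aeval A h‖ ≤ 2 * N := by
    intro h N hh
    have := conj_bound A q hq0 hq1 hdim 1 le_rfl (by norm_num; simpa using hq1') h N hh y₀ hy₀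
    rw [inv_one, Lop_one] at this
    exact this
  have hB2 : ∀ T ∈ Bset A q, ‖T‖ ≤ 2 := by
    rintro T ⟨h, hh, rfl⟩
    simpa using htwo h 1 hh
  have hBne : (Bset A q).Nonempty := ⟨_, 0, by simp, rfl⟩
  have : ProperSpace (H →L[ℂ] H) := FiniteDimensional.proper ℂ (H →L[ℂ] H)
  have hcomp : IsCompact (closure (Bset A q)) := by
    apply Metric.isCompact_of_isClosed_isBounded isClosed_closure
    apply Bornology.IsBounded.closure
    rw [isBounded_iff_forall_norm_le]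
    exact ⟨2, hB2⟩
  obtain ⟨T, hT, hmax⟩ := hcomp.exists_isMaxOn hBne.closure (f := fun T => ‖T‖) (by fun_prop)
  have hmax' : ∀ S ∈ Bset A q, ‖S‖ ≤ ‖T‖ := fun S hS => hmax (subset_closure hS)
  have hK : ‖T‖ ≤ max 1 (2 / t) := by
    by_contra hcon
    push Not at hcon
    have h1 : 1 < ‖T‖ := lt_of_le_of_lt (le_max_left _ _) hcon
    have h2 : 2 / t < ‖T‖ := lt_of_le_of_lt (le_max_right _ _) hcon
    obtain ⟨x, hx, hTx⟩ := exists_norm_attained T
    have horth := extremal_orth A q T hT hmax' h1 x hx hTx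
    have hTp : 0 < ‖T‖ := by linarith
    set y : H := ((‖T‖⁻¹ : ℝ) : ℂ) • T x with hy
    have hy1 : ‖y‖ = 1 := by
      rw [hy, norm_smul, Complex.norm_real, norm_inv, norm_norm, hTx, inv_mul_cancel₀ hTp.ne']
    have hyx : inner ℂ y x = 0 := by
      rw [hy, inner_smul_left, horth, mul_zero]
    have hTxy : T x = ((‖T‖ : ℝ) : ℂ) • y := by
      rw [hy, smul_smul, ← Complex.ofReal_mul, mul_inv_cancel₀ hTp.ne', Complex.ofReal_one,
        one_smul]
    have h3 : (Lop y t * T * Lop y t⁻¹) x = ((t * ‖T‖ : ℝ) : ℂ) • y := by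
      have e1 : Lop y t⁻¹ x = x := by rw [Lop_apply, hyx]; simp
      have hyy : inner ℂ y y = (1 : ℂ) := by
        rw [inner_self_eq_norm_sq_to_K, hy1]; simp
      have e2 : Lop y t y = ((t : ℝ) : ℂ) • y := by
        rw [Lop_apply, hyy, mul_one]
        nth_rewrite 1 [← one_smul ℂ y]
        rw [← add_smul]
        congr 1
        push_cast; ring
      rw [mul_apply_eq_comp, mul_apply_eq_comp, e1, hTxy, map_smul, e2, smul_smul]
      congr 1
      push_cast; ring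
    have h4 : t * ‖T‖ ≤ 2 := by
      have h5 := (Lop y t * T * Lop y t⁻¹).le_opNorm x
      rw [h3, norm_smul, Complex.norm_real, hy1, mul_one, hx, mul_one,
        Real.norm_of_nonneg (by positivity)] at h5
      exact h5.trans (hconj T hT y hy1)
    rw [div_lt_iff₀ ht0] at h2
    linarith
  have hM0 : 0 ≤ M := by
    have := htwo p M hM
    have := norm_nonneg (aeval A p)
    linarith
  rcases hM0.eq_or_lt with h0 | h0
  · have := htwo p M hM
    rw [← h0, mul_zero] at this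
    rw [← h0, mul_zero]
    exact this
  · have h1 : ‖aeval A (C (((M⁻¹ : ℝ) : ℂ)) * p)‖ ≤ ‖T‖ := by
      apply hmax'
      refine ⟨_, ?_, rfl⟩
      intro z hz
      rw [eval_mul, eval_C, norm_mul, Complex.norm_real, norm_inv, Real.norm_of_nonneg h0.le,
        inv_mul_le_iff₀ h0, mul_one]
      exact hM z hz
    rw [map_mul, aeval_C, Algebra.algebraMap_eq_smul_one, smul_one_mul, norm_smul,
      Complex.norm_real, norm_inv, Real.norm_of_nonneg h0.le, inv_mul_le_iff₀ h0] at h1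
    calc ‖aeval A p‖ ≤ M * ‖T‖ := h1
      _ ≤ M * max 1 (2 / t) := by gcongr
      _ = max 1 (2 / t) * M := mul_comm _ _

end Pool.Agent.K6.H39.QNR
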